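import Pool.Agent.L0h45.AV.Stm4
import Pool.Agent.L0h55.AV.RNK

/-!
# Project AV, module RNKe: the rank and the tuples, any `a` (adapted from RNKn of helper55)
-/

set_option autoImplicit false
set_option linter.all false

open Finset IsDedekindDomain NumberField Polynomial
open scoped Classical

namespace Pool.Agent.L0h66.AV

open Pool.Agent.N874.PP (Tup chA chB gq tau Ev)
open Pool.Agent.N922.PQ (dsc IsCub vec)
open Pool.Agent.L0h45.AR (crv cub Alg th)
open Pool.Agent.L0h45.AV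
open Pool.Agent.L0h55.AV (cub_monic cub_deg exists_cub norm_sub crv_eq)

theorem cub_irre {a b : ℤ} (h : ∀ t : ℚ, t ^ 3 + a * t + b ≠ 0) : Irreducible (cub a b) := by
  rw [Monic.irreducible_iff_roots_eq_zero_of_degree_le_three (cub_monic a b)
    (by rw [cub_deg]; norm_num) (by rw [cub_deg])]
  rw [Multiset.eq_zero_iff_forall_notMem]
  intro t ht
  have ht' := (mem_roots (cub_monic a b).ne_zero).1 ht
  apply h t
  unfold cub at ht'
  simpa [IsRoot.def] using ht'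

/-- **RNKe** -/
theorem t_RNKe : S_IRRe → S_RDXn → S_EVP → S_REXn → S_RLM → S_RLI → S_RLC → S_SQN → S_SL8e →
    S_RNKe := by
  intro hIRR hRDX hEVP hREX hRLM hRLI hRLC hSQN hSL8 a b ha hsq
  have hΔ : 4 * a ^ 3 + 27 * b ^ 2 ≠ 0 := hsq.ne_zero
  obtain ⟨L, iF, iN, θ, hc, φ, hφ, hφq⟩ := exists_cub (cub_irre (hIRR a b ha hsq))
  have hFG : AddGroup.FG (crv a b).toAffine.Point := by
    apply Pool.Agent.Q286.EQ.mordell_weil ℚ (crv a b)
    intro h
    apply hΔ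
    have h1 : (crv a b).Δ = -16 * ((4 * a ^ 3 + 27 * b ^ 2 : ℤ) : ℚ) := by
      simp only [crv, WeierstrassCurve.Δ, WeierstrassCurve.b₂, WeierstrassCurve.b₄,
        WeierstrassCurve.b₆, WeierstrassCurve.b₈]
      push_cast
      ring
    rw [h1] at h
    have h2 : ((4 * a ^ 3 + 27 * b ^ 2 : ℤ) : ℚ) = 0 := by linarith
    exact_mod_cast h2
  obtain ⟨S₀, hS₀, hinc⟩ := Pool.Agent.L0h95.AR.mw (crv a b).toAffine.Point hFG
  -- the points which are doubles
  have hdb : (S₀.filter (fun P => ∃ Q, Q + Q = P)).card ≤ 1 := by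
    rw [card_le_one]
    intro P hP P' hP'
    rw [mem_filter] at hP hP'
    obtain ⟨hP1, Q, hQ⟩ := hP
    obtain ⟨hP1', Q', hQ'⟩ := hP'
    by_contra hne
    apply hinc P hP1 P' hP1' hne (Q - Q')
    rw [← hQ, ← hQ']
    abel
  obtain ⟨S₁, hS₁⟩ : ∃ S₁, S₁ = S₀.filter (fun P => ¬ (∃ Q, Q + Q = P)) := ⟨_, rfl⟩
  have hS₁c : S₀.card ≤ S₁.card + 1 := by
    have h1 := card_filter_add_card_filter_not (s := S₀) (fun P => ∃ Q, Q + Q = P)
    rw [← hS₁] at h1
    omega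
  -- squares
  have hsqr : ∀ z : L, IsSquare z → IsSquare (φ z) := fun z hz => hz.map φ
  -- the tuples
  have hform : ∀ P ∈ S₁, ∃ B : Tup ℤ, ∃ (x y : ℚ) (h : (crv a b).toAffine.Nonsingular x y),
      P = .some x y h ∧ y ≠ 0 ∧ ((x : L) - θ) ≠ 0 ∧ Rel hc ((x : L) - θ) B ∧ Red B ∧ Sol8 B ∧
        B.x ≠ 0 ∧ chA B = a ∧ chB B = b := by
    intro P hP
    rw [hS₁, mem_filter] at hP
    obtain ⟨-, h2⟩ := hP
    rcases P with _ | ⟨x, y, h⟩
    · exact absurd ⟨0, add_zero 0⟩ h2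
    · have he := crv_eq h
      have hy : y ≠ 0 := by
        rintro rfl
        apply hIRR a b ha hsq x
        rw [← he]
        norm_num
      have hN : Algebra.norm ℚ ((x : L) - θ) = y ^ 2 := by rw [norm_sub hc, he]
      have hα : ((x : L) - θ) ≠ 0 := by
        intro h0
        rw [h0, Algebra.norm_zero] at hN
        exact hy (pow_eq_zero_iff (two_ne_zero) |>.1 hN.symm)
      have hNs : IsSquare (Algebra.norm ℚ ((x : L) - θ)) := ⟨y, by rw [hN, sq]⟩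
      have hns : ¬ IsSquare ((x : L) - θ) := by
        intro hs
        have h3 := hsqr _ hs
        rw [map_sub, hφ, hφq] at h3
        obtain ⟨Q, hQ⟩ := Pool.Agent.L0h90.AR.half a b hΔ x y h h3
        exact h2 ⟨Q, hQ⟩
      obtain ⟨B₀, hB₀⟩ := hREX L (𝓞 L) a b θ hc ha hsq ((x : L) - θ) hα hNs
        (fun 𝔓 => hEVP L (𝓞 L) a b θ hc hsq x y he 𝔓)
      obtain ⟨B, hB, hred⟩ := hRDX (fun B => Rel hc ((x : L) - θ) B)
        (fun B hB => hRLM L a b θ hc _ B hB) (fun B hB => by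
          obtain ⟨h3, h4, h5⟩ := hRLC L a b θ hc _ B hα hB
          exact ⟨h5 hNs hns, by rw [h3, h4]; exact ha⟩) B₀ hB₀
      obtain ⟨h3, h4, h5⟩ := hRLC L a b θ hc _ B hα hB
      obtain ⟨s, t, n, hst, hg⟩ := hSQN L a b θ hc x B hB
      exact ⟨B, x, y, h, rfl, hy, hα, hB, hred, hSL8 B s t n hst hg, h5 hNs hns, h3, h4⟩
  haveI : Nonempty (Tup ℤ) := ⟨⟨0, 0, 0, 0, 0⟩⟩
  choose! Fm hFm using hform
  have hkey : ∀ P ∈ S₁, ∀ P' ∈ S₁, Fm P = Fm P' → P = P' := by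
    intro P hP P' hP' he
    obtain ⟨x, y, h, rfl, hy, hα, hR, -, -, -, -, -⟩ := hFm P hP
    obtain ⟨x', y', h', rfl, hy', hα', hR', -, -, -, -, -⟩ := hFm P' hP'
    rw [← he] at hR'
    by_contra hne
    have h1 := hsqr _ (hRLI L a b θ hc _ _ _ hα hα' hR hR')
    rw [map_mul, map_sub, map_sub, hφ, hφq, hφq] at h1
    obtain ⟨Q, hQ⟩ := Pool.Agent.L0h90.AR.pair a b hΔ x y x' y' h h' hy hy' h1
    rw [hS₁, mem_filter] at hP hP'
    exact hinc _ hP.1 _ hP'.1 hne Q hQ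
  refine ⟨S₁.image Fm, ?_, ?_⟩
  · rw [card_image_of_injOn, ← hS₀]
    · exact hS₁c
    · intro P hP P' hP' h
      rw [mem_coe] at hP hP'
      exact hkey P hP P' hP' h
  · intro B hB
    rw [mem_image] at hB
    obtain ⟨P, hP, rfl⟩ := hB
    obtain ⟨x, y, h, -, hy, hα, hR, hred, hsol, hx, hA, hB'⟩ := hFm P hP
    exact ⟨hx, hA, hB', hred, hsol⟩

end Pool.Agent.L0h66.AV
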